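import Pool.Agent.Helper92.BO.GoalsE

namespace Pool.Agent.Helper70.BO
open Pool.Agent.Helper92.BO

theorem pmt : PmtStmt := by
  intro β A B hβ hB
  have hβ0 : 0 < β := by linarith
  have hβ1 : 0 < β - 1 := by linarith
  obtain ⟨κ, hκ⟩ : ∃ κ : ℕ, 8 * ((A : ℝ) + 1) / (β - 1) ≤ 3 ^ κ := by
    obtain ⟨κ, hκ⟩ := pow_unbounded_of_one_lt (8 * ((A : ℝ) + 1) / (β - 1))
      (by norm_num : (1 : ℝ) < 3)
    exact ⟨κ, hκ.le⟩
  obtain ⟨C, hC⟩ : ∃ C : ℕ, (2 : ℝ) ^ (κ + 2) ≤ β ^ C := by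
    obtain ⟨C, hC⟩ := pow_unbounded_of_one_lt ((2 : ℝ) ^ (κ + 2)) hβ
    exact ⟨C, hC.le⟩
  obtain ⟨c0, hc0, hc0'⟩ : ∃ c0 : ℕ, B ^ (2 * C) ≤ 2 ^ c0 ∧ 2 ^ C ≤ 2 ^ c0 := by
    refine ⟨B ^ (2 * C) + C, ?_, ?_⟩
    · have h1 : B ^ (2 * C) < 2 ^ (B ^ (2 * C)) := Nat.lt_two_pow_self
      exact h1.le.trans (Nat.pow_le_pow_right (by norm_num) (Nat.le_add_right _ _))
    · exact Nat.pow_le_pow_right (by norm_num) (Nat.le_add_left _ _)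
  refine ⟨C, 2 * c0, fun n q => ?_⟩
  obtain ⟨x, hx⟩ : ∃ x, x = n + q + 2 := ⟨_, rfl⟩
  obtain ⟨j, hj⟩ : ∃ j, j = Nat.log 2 x + 1 := ⟨_, rfl⟩
  have hx2 : 2 ≤ x := by omega
  have hm : mP C n q = C * j := by rw [hj, hx]; rfl
  have h1 : x < 2 ^ j := by rw [hj]; exact Nat.lt_pow_succ_log_self (by norm_num) x
  have h2 : 2 ^ j ≤ x * x := by
    rw [hj, pow_succ]
    exact Nat.mul_le_mul (Nat.pow_log_le_self 2 (by omega)) hx2
  have h3 : (2 ^ c0) ^ j ≤ x ^ (2 * c0) := by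
    rw [← pow_mul, mul_comm c0 j, pow_mul, pow_mul x 2 c0]
    exact Nat.pow_le_pow_left (h2.trans (by rw [pow_two])) c0
  rw [hm, ← hx]
  refine ⟨?_, ?_, fun hq => ?_⟩
  · calc B ^ (2 * (C * j)) = (B ^ (2 * C)) ^ j := by rw [← pow_mul]; congr 1; ring
      _ ≤ (2 ^ c0) ^ j := Nat.pow_le_pow_left hc0 j
      _ ≤ _ := h3
  · calc 2 ^ (C * j) = (2 ^ C) ^ j := by rw [pow_mul]
      _ ≤ (2 ^ c0) ^ j := Nat.pow_le_pow_left hc0' j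
      _ ≤ _ := h3
  · have hx3 : (3 : ℝ) ≤ x := by
      have : 3 ≤ x := by omega
      exact_mod_cast this
    have hxj : (x : ℝ) ≤ 2 ^ j := by exact_mod_cast h1.le
    have h4 : (x : ℝ) ^ 2 * (8 * ((A : ℝ) + 1) / (β - 1)) ≤ β ^ (C * j) := by
      calc (x : ℝ) ^ 2 * (8 * ((A : ℝ) + 1) / (β - 1)) ≤ (x : ℝ) ^ 2 * 3 ^ κ := by gcongr
        _ ≤ (x : ℝ) ^ 2 * (x : ℝ) ^ κ := by gcongr
        _ = (x : ℝ) ^ (κ + 2) := by rw [← pow_add]; congr 1; ring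
        _ ≤ ((2 : ℝ) ^ j) ^ (κ + 2) := by gcongr
        _ = ((2 : ℝ) ^ (κ + 2)) ^ j := by rw [← pow_mul, ← pow_mul]; congr 1; ring
        _ ≤ (β ^ C) ^ j := by gcongr
        _ = β ^ (C * j) := by rw [pow_mul]
    have h5 : (x : ℝ) ^ 2 * (8 * ((A : ℝ) + 1)) ≤ β ^ (C * j) * (β - 1) := by
      rw [← mul_div_assoc, div_le_iff₀ hβ1] at h4
      exact h4
    have hn : (n : ℝ) ≤ x := by exact_mod_cast (by omega : n ≤ x)
    have hqx : (q : ℝ) ≤ x := by exact_mod_cast (by omega : q ≤ x)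
    have hq1 : (1 : ℝ) ≤ q := by exact_mod_cast hq
    have h6 : (n : ℝ) * q ≤ (x : ℝ) ^ 2 := by
      rw [pow_two]
      exact mul_le_mul hn hqx (by positivity) (by positivity)
    have h7 : 0 < β ^ (C * j) := by positivity
    have hA : (0 : ℝ) ≤ A := by positivity
    have h8 : (n : ℝ) * A * ((1 / β) ^ (C * j) / (β - 1)) =
        (n * A) / (β ^ (C * j) * (β - 1)) := by
      rw [div_pow, one_pow]
      field_simp
    rw [h8, div_le_div_iff₀ (by positivity) (by positivity)]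
    nlinarith [mul_le_mul_of_nonneg_right h6 hA, sq_nonneg (x : ℝ)]

end Pool.Agent.Helper70.BO
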